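import Pool.Agent.H.MP_0d3db7_pr.C

namespace Pool.Agent.Results.MP_0d3db7_pr.No
open MeasureTheory ProbabilityTheory Filter Pool.Agent.H.MP_3ce60b_pr

theorem result : ∃ (Ω : Type) (_ : MeasurableSpace Ω) (P : Measure Ω) (_ : IsProbabilityMeasure P)
    (w : Ω → ℤ → ℕ → ℝ), (∀ z i, Measurable fun ω => w ω z i) ∧
    iIndepFun (fun (c : ℤ × ℕ) ω => w ω c.1 c.2) P ∧
    (∀ z i, P.map (fun ω => w ω z i) =
      (1 / 2 : ENNReal) • (Measure.dirac (3 / 4 : ℝ) + Measure.dirac (1 / 4 : ℝ))) ∧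
    (∀ ω z i, w ω z i = 1 / 4 ∨ w ω z i = 3 / 4) ∧
    ∀ᵐ ω ∂P, ¬ ∃ (c : ℕ → ℝ) (v : NNReal), v ≠ 0 ∧ ∀ x : ℝ,
      Tendsto (fun n => ex (w ω) n (fun l => if (pos l - c n) / √n ≤ x then 1 else 0)) atTop
        (nhds ((gaussianReal 0 v).real (Set.Iic x))) := by
  open Pool.Agent.H.MP_0d3db7_pr in
  have hm : Measurable fun b : Bool => (1 / 2 + 1 / 4 * (if b then 1 else -1) : ℝ) :=
    measurable_of_countable _
  refine ⟨Pool.Agent.H.MP_0d3db7_pr.Om, inferInstance, Pool.Agent.H.MP_0d3db7_pr.PP, inferInstance,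
    Pool.Agent.H.MP_0d3db7_pr.env, fun z i => hm.comp (measurable_pi_apply (z, i)),
    iIndepFun_infinitePi (P := fun _ : ℤ × ℕ => Pool.Agent.H.MP_0d3db7_pr.coin) (fun _ => hm),
    fun z i => ?_, fun ω z i => ?_, Pool.Agent.H.MP_0d3db7_pr.main⟩
  · refine (Measure.map_map hm (measurable_pi_apply (z, i))).symm.trans ?_
    rw [Pool.Agent.H.MP_0d3db7_pr.PP, Measure.infinitePi_map_eval, Pool.Agent.H.MP_0d3db7_pr.coin,
      Measure.map_smul, Measure.map_add _ _ hm, Measure.map_dirac' hm, Measure.map_dirac' hm]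
    norm_num
  · unfold Pool.Agent.H.MP_0d3db7_pr.env Pool.Agent.H.MP_0d3db7_pr.sg
    split_ifs <;> norm_num

end Pool.Agent.Results.MP_0d3db7_pr.No
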